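import Pool.Agent.helper87.AU.SpecQ1

/-!
# Project au: module QL2
-/

namespace Pool.Agent.helper53.AU

open scoped Classical IntermediateField
open Polynomial (aeval)

theorem QL2_common {k F : Type} [Field k] [Field F] [Algebra k F] (z : F) :
    ∀ (s : Finset ℕ) (c : ℕ → F), (∀ i ∈ s, c i ∈ k⟮z⟯) →
      ∃ (h : Polynomial k) (φ : ℕ → Polynomial k), aeval z h ≠ 0 ∧
        ∀ i ∈ s, aeval z h * c i = aeval z (φ i) := by
  intro s c
  induction s using Finset.induction_on with
  | empty =>
    intro _
    exact ⟨1, fun _ => 0, by simp, by simp⟩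
  | insert a s ha ih =>
    intro hc
    obtain ⟨h, φ, hh, hφ⟩ := ih (fun i hi => hc i (Finset.mem_insert_of_mem hi))
    obtain ⟨p, q, hpq⟩ := IntermediateField.mem_adjoin_simple_iff k (c a) |>.mp
      (hc a (Finset.mem_insert_self a s))
    by_cases hq : aeval z q = 0
    · refine ⟨h, Function.update φ a 0, hh, ?_⟩
      intro i hi
      rw [Finset.mem_insert] at hi
      rcases hi with rfl | hi
      · rw [hpq, hq]; simp
      · have hia : i ≠ a := fun h => ha (h ▸ hi)
        rw [Function.update_of_ne hia]
        exact hφ i hi
    · refine ⟨h * q, fun i => if i = a then h * p else φ i * q, ?_, ?_⟩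
      · rw [map_mul]; exact mul_ne_zero hh hq
      · intro i hi
        rw [Finset.mem_insert] at hi
        rcases hi with rfl | hi
        · change aeval z (h * q) * c i = aeval z (if i = i then h * p else φ i * q)
          rw [if_pos rfl, map_mul, map_mul, hpq]
          field_simp
        · have hia : i ≠ a := fun h => ha (h ▸ hi)
          change aeval z (h * q) * c i = aeval z (if i = a then h * p else φ i * q)
          rw [if_neg hia, map_mul, map_mul, ← hφ i hi]
          ring

theorem QL2 (hQL0 : QL0_stmt) : QL2_stmt := by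
  intro k F _ _ _ hFF z hz
  have hfin := hQL0 k F hFF z hz
  let b := Module.finBasis k⟮z⟯ F
  refine ⟨b, ?_, ?_⟩
  · intro φ hφ
    have hli := Fintype.linearIndependent_iff.mp b.linearIndependent
      (fun i => ⟨aeval z (φ i), by
        exact (IntermediateField.mem_adjoin_simple_iff k _).mpr ⟨φ i, 1, by simp⟩⟩) (by
        rw [← hφ]
        refine Finset.sum_congr rfl ?_
        intro i _
        rfl)
    intro i
    have h1 := congrArg Subtype.val (hli i)
    have h2 : aeval z (φ i) = 0 := h1
    exact (transcendental_iff.mp hz) (φ i) h2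
  · intro f
    obtain ⟨h, φ, hh, hφ⟩ := QL2_common (k := k) z
      (Finset.range (degx k z))
      (fun j => if hj : j < degx k z then (((b.repr f) ⟨j, hj⟩ : k⟮z⟯) : F) else 0) (by
        intro i hi
        have hi' := Finset.mem_range.mp hi
        rw [dif_pos hi']
        exact ((b.repr f) ⟨i, hi'⟩).2)
    refine ⟨h, fun i => φ i, ?_, ?_⟩
    · rintro rfl
      exact hh (by simp)
    · conv_lhs => rw [← b.sum_repr f]
      rw [Finset.mul_sum]
      refine Finset.sum_congr rfl ?_
      intro i _
      have hi : (i : ℕ) < degx k z := i.2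
      have h1 := hφ i (Finset.mem_range.mpr hi)
      rw [dif_pos hi] at h1
      change _ = aeval z (φ i) * b i
      rw [← h1, mul_assoc]
      rfl

end Pool.Agent.helper53.AU
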