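import Pool.Agent.helper53.AU.SpecG1

/-!
# Project au: module LP (Lemma O, primitive case)
-/

namespace Pool.Agent.helper53.AU

open scoped Classical

/-- a 2-transitive group on at least two points has even order -/
theorem LP_even {X Ω : Type} [Group X] [MulAction X Ω] [Finite X] (h2 : TwoTrans X Ω)
    (hodd : Odd (Nat.card X)) (a b : Ω) : a = b := by
  by_contra hab
  obtain ⟨g, hg1, hg2⟩ := h2 a b b a hab (Ne.symm hab)
  -- `g` swaps `a` and `b`
  have hpow : ∀ n : ℕ, (g ^ (2 * n + 1)) • a = b := by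
    intro n
    induction n with
    | zero => simpa using hg1
    | succ n ih =>
      have : g ^ (2 * (n + 1) + 1) = g * (g * g ^ (2 * n + 1)) := by
        rw [show 2 * (n + 1) + 1 = (2 * n + 1) + 1 + 1 by ring, pow_succ', pow_succ']
      rw [this, mul_smul, mul_smul, ih, hg2, hg1]
  obtain ⟨m, hm⟩ := hodd
  have h1 : g ^ (2 * m + 1) = 1 := by
    rw [← hm]
    exact pow_card_eq_one'
  have h3 := hpow m
  rw [h1, one_smul] at h3
  exact hab h3

theorem LP_comm {X : Type} [Group X] (A : Subgroup X) (hcyc : IsCyclic A) :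
    ∀ a ∈ A, ∀ b ∈ A, a * b = b * a := by
  intro a ha b hb
  obtain ⟨c, hc⟩ := hcyc.exists_generator
  obtain ⟨m, hm⟩ := hc ⟨a, ha⟩
  obtain ⟨n, hn⟩ := hc ⟨b, hb⟩
  have h : (⟨a, ha⟩ : A) * ⟨b, hb⟩ = ⟨b, hb⟩ * ⟨a, ha⟩ := by
    rw [← hm, ← hn]
    change c ^ m * c ^ n = c ^ n * c ^ m
    rw [← zpow_add, ← zpow_add, add_comm]
  exact congrArg Subtype.val h

theorem LP_count {X : Type} [Group X] [Finite X] (A : Subgroup X) (hcyc : IsCyclic A) (r : ℕ)
    (hr : r ∣ Nat.card A) : Nat.card {a : X // a ∈ A ∧ a ^ r = 1} = r := by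
  let cg : CommGroup A := { (inferInstance : Group A) with
    mul_comm := fun a b => Subtype.ext (LP_comm A hcyc a.1 a.2 b.1 b.2) }
  have h := @IsCyclic.card_powMonoidHom_ker A cg hcyc inferInstance r
  rw [Nat.gcd_eq_right hr] at h
  refine Eq.trans ?_ h
  refine Nat.card_congr
    { toFun := fun a => ⟨⟨a.1, a.2.1⟩, ?_⟩
      invFun := fun a => ⟨a.1.1, a.1.2, ?_⟩
      left_inv := ?_
      right_inv := ?_ }
  · rw [MonoidHom.mem_ker]
    exact Subtype.ext a.2.2
  · have h2 := a.2
    rw [MonoidHom.mem_ker] at h2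
    exact congrArg Subtype.val h2
  · intro a; rfl
  · intro a; rfl

theorem LP (hSR : SR_stmt) (hBU : BU_stmt) : LP_stmt := by
  intro X Ω _ _ _ _ _ A htr hprim hodd hcyc hreg g a ha
  rcases isEmpty_or_nonempty Ω with hΩ | hΩ
  · -- the empty set: the group is trivial
    have h1 : g = 1 := by
      apply FaithfulSMul.eq_of_smul_eq_smul (α := Ω)
      intro x
      exact isEmptyElim x
    rw [h1, one_mul, inv_one, mul_one]
    exact ha
  obtain ⟨ω⟩ := hΩ
  -- `|Ω| = |A|`
  have hcard : Nat.card A = Nat.card Ω := by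
    refine Nat.card_congr (Equiv.ofBijective (fun d : A => (d : X) • ω) ⟨?_, ?_⟩)
    · intro d e hde
      obtain ⟨x, -, hx⟩ := hreg ω ((d : X) • ω)
      have h1 := hx d rfl
      have h2 := hx e hde.symm
      rw [h1, h2]
    · intro β
      obtain ⟨x, hx, -⟩ := hreg ω β
      exact ⟨x, hx⟩
  by_cases h1 : Nat.card Ω = 1
  · have h2 : a = 1 := by
      rw [h1] at hcard
      have := (Nat.card_eq_one_iff_unique.mp hcard).1
      have h3 : (⟨a, ha⟩ : A) = 1 := Subsingleton.elim _ _
      exact congrArg Subtype.val h3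
    rw [h2, mul_one, mul_inv_cancel]
    exact A.one_mem
  have hpos : 0 < Nat.card Ω := by
    have : Nonempty Ω := ⟨ω⟩
    exact Nat.card_pos
  -- two different points
  have htwo : ¬ TwoTrans X Ω := by
    intro h2
    apply h1
    rw [Nat.card_eq_one_iff_unique]
    exact ⟨⟨fun a b => LP_even h2 hodd a b⟩, ⟨ω⟩⟩
  obtain ⟨c, hc⟩ := hcyc.exists_generator
  have hord : orderOf (c : X) = Nat.card Ω := by
    rw [← hcard, Subgroup.orderOf_coe]
    exact orderOf_eq_card_of_forall_mem_zpowers hc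
  by_cases hp : (Nat.card Ω).Prime
  · rcases hBU X Ω (c : X) hp hord with h | h
    · exact absurd h htwo
    · -- `a` is a power of `c`
      obtain ⟨n, hn⟩ := hc ⟨a, ha⟩
      have hn' : (c : X) ^ n = a := congrArg Subtype.val hn
      obtain ⟨m, hm⟩ := h g
      have hm' : (c : X) ^ m = g * c * g⁻¹ := hm
      rw [← hn', ← conj_zpow, ← hm']
      exact A.zpow_mem (A.zpow_mem c.2 m) n
  · exfalso
    apply htwo
    have hr := Nat.minFac_prime h1
    have hrd := Nat.minFac_dvd (Nat.card Ω)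
    refine hSR X Ω A ⊥ ω (Nat.card Ω).minFac htr hprim ?_ ?_ ?_ hr ?_ ?_ ?_ ?_
    · exact LP_comm A hcyc
    · intro x hx e he
      rw [Subgroup.mem_bot] at he
      rw [he]; simp
    · intro α β
      obtain ⟨x, hx, hx'⟩ := hreg α β
      refine ⟨(x, 1), ?_, ?_⟩
      · simpa using hx
      · rintro ⟨y, e⟩ hy
        have he : e = 1 := Subsingleton.elim _ _
        subst he
        have : y = x := hx' y (by simpa using hy)
        rw [this]
    · exact LP_count A hcyc _ (by rw [hcard]; exact hrd)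
    · simpa using hr.one_lt.ne'
    · refine lt_of_le_of_ne (Nat.minFac_le hpos) ?_
      intro h
      apply hp
      rw [← h]
      exact hr
    · intro x hx e he f hf he1
      rw [Subgroup.mem_bot] at he
      exact absurd he he1

end Pool.Agent.helper53.AU
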