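import Pool.Agent.helper53.AU.SpecG2

/-!
# Project au: module P4
-/

namespace Pool.Agent.helper53.AU

open scoped Classical

/-- the orbit formula for a subset-subgroup -/
theorem P4_orb {L Ω : Type} [Group L] [MulAction L Ω] [Finite L] (C : Subgroup L) (α : Ω)
    (htr : ∀ β : Ω, ∃ g : L, g ∈ C ∧ g • α = β) :
    Nat.card {g : L // g • α = α ∧ g ∈ C} * Nat.card Ω = Nat.card C := by
  have h1 : Nat.card (MulAction.orbit C α) * Nat.card (MulAction.stabilizer C α) =
      Nat.card C := by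
    rw [← Nat.card_prod]
    exact Nat.card_congr (MulAction.orbitProdStabilizerEquivGroup C α)
  have h2 : MulAction.orbit C α = Set.univ := by
    rw [Set.eq_univ_iff_forall]
    intro β
    obtain ⟨g, hg, hgβ⟩ := htr β
    exact ⟨⟨g, hg⟩, hgβ⟩
  have h3 : Nat.card (MulAction.orbit C α) = Nat.card Ω := by
    rw [h2]; exact Nat.card_congr (Equiv.Set.univ Ω)
  have h4 : Nat.card (MulAction.stabilizer C α) = Nat.card {g : L // g • α = α ∧ g ∈ C} := by
    refine Nat.card_congr
      { toFun := fun g => ⟨(g : C), ?_, (g : C).2⟩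
        invFun := fun g => ⟨⟨g.1, g.2.2⟩, ?_⟩
        left_inv := ?_
        right_inv := ?_ }
    · have := g.2
      rw [MulAction.mem_stabilizer_iff] at this
      exact this
    · rw [MulAction.mem_stabilizer_iff]
      exact g.2.1
    · intro g; rfl
    · intro g; rfl
  rw [← h4, ← h3, mul_comm]
  exact h1

theorem P4_oddstab {L Ω : Type} [Group L] [MulAction L Ω] {A : Subgroup L} (h : PL L Ω A)
    (α : Ω) : Odd (Nat.card (MulAction.stabilizer L α)) := by
  by_contra hodd
  rw [Nat.not_odd_iff_even] at hodd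
  have h1 := h.copr α
  have h2 : 2 ∣ Nat.card Ω := dvd_trans (by norm_num) h.four
  have h3 := Nat.dvd_gcd (even_iff_two_dvd.mp hodd) h2
  rw [Nat.Coprime] at h1
  rw [h1] at h3
  omega

/-- conjugation on the involutions -/
@[reducible] def P4_act (L : Type) [Group L] : MulAction L {t : L // IsInv t} where
  smul g t := ⟨g * t.1 * g⁻¹, by
    have h1 := t.2.1
    constructor
    · calc g * t.1 * g⁻¹ * (g * t.1 * g⁻¹) = g * (t.1 * t.1) * g⁻¹ := by group
        _ = 1 := by rw [h1]; group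
    · intro h
      apply t.2.2
      calc t.1 = g⁻¹ * (g * t.1 * g⁻¹) * g := by group
        _ = 1 := by rw [h]; group⟩
  one_smul t := by
    apply Subtype.ext
    change 1 * t.1 * 1⁻¹ = t.1
    group
  mul_smul g k t := by
    apply Subtype.ext
    change g * k * t.1 * (g * k)⁻¹ = g * (k * t.1 * k⁻¹) * g⁻¹
    group

theorem P4 (hP1 : P1_stmt) (hP3 : P3_stmt) : P4_stmt := by
  intro L Ω _ _ A h
  have := h.finL
  have := h.finΩ
  have := h.nonempty
  obtain ⟨⟨τ₀, -, hτ₀⟩, hconj⟩ := hP1 L Ω A h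
  have hC : ∀ τ g : L, g * τ = τ * g ↔ g ∈ Subgroup.centralizer ({τ} : Set L) := by
    intro τ g
    rw [Subgroup.mem_centralizer_singleton_iff]
    
  have horb : ∀ (τ : L) (α : Ω), IsInv τ →
      Nat.card {g : L // g • α = α ∧ g * τ = τ * g} * Nat.card Ω =
        Nat.card {g : L // g * τ = τ * g} := by
    intro τ α hτ
    have h1 := P4_orb (Subgroup.centralizer ({τ} : Set L)) α (by
      intro β
      obtain ⟨g, hg, hgβ⟩ := hP3 L Ω A h τ hτ α β
      exact ⟨g, (hC τ g).1 hg, hgβ⟩)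
    have e1 : Nat.card {g : L // g • α = α ∧ g * τ = τ * g} =
        Nat.card {g : L // g • α = α ∧ g ∈ Subgroup.centralizer ({τ} : Set L)} := by
      simp only [hC]
    have e2 : Nat.card {g : L // g * τ = τ * g} =
        Nat.card (Subgroup.centralizer ({τ} : Set L)) := by
      simp only [hC]
    rw [e1, e2]
    exact h1
  -- the centralisers of the involutions have the same order
  have hsame : ∀ s t : L, IsInv s → IsInv t →
      Nat.card {g : L // g * s = s * g} = Nat.card {g : L // g * t = t * g} := by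
    intro s t hs ht
    obtain ⟨x, hx⟩ := hconj s t hs ht
    subst hx
    refine Nat.card_congr
      { toFun := fun g => ⟨x * g.1 * x⁻¹, ?_⟩
        invFun := fun g => ⟨x⁻¹ * g.1 * x, ?_⟩
        left_inv := ?_
        right_inv := ?_ }
    · have := g.2
      calc x * g.1 * x⁻¹ * (x * s * x⁻¹) = x * (g.1 * s) * x⁻¹ := by group
        _ = x * (s * g.1) * x⁻¹ := by rw [this]
        _ = _ := by group
    · have := g.2
      calc x⁻¹ * g.1 * x * s = x⁻¹ * (g.1 * (x * s * x⁻¹)) * x := by group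
        _ = x⁻¹ * (x * s * x⁻¹ * g.1) * x := by rw [this]
        _ = _ := by group
    · intro g; apply Subtype.ext; simp; group
    · intro g; apply Subtype.ext; simp; group
  obtain ⟨α₀⟩ := h.nonempty
  have hΩ : 0 < Nat.card Ω := Nat.card_pos
  have hν : ∀ (τ : L) (α : Ω), IsInv τ → Nat.card {g : L // g • α = α ∧ g * τ = τ * g} =
      Nat.card {g : L // g • α₀ = α₀ ∧ g * τ₀ = τ₀ * g} := by
    intro τ α hτ
    have h1 := horb τ α hτ
    have h2 := horb τ₀ α₀ hτ₀
    rw [hsame τ τ₀ hτ hτ₀, ← h2] at h1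
    exact Nat.eq_of_mul_eq_mul_right hΩ h1
  have htrans : ∀ (α : Ω) (s t : L), IsInv s → IsInv t →
      ∃ g : L, g • α = α ∧ g * s * g⁻¹ = t := by
    intro α s t hs ht
    obtain ⟨x, hx⟩ := hconj s t hs ht
    obtain ⟨y, hy, hyα⟩ := hP3 L Ω A h t ht (x • α) α
    refine ⟨y * x, ?_, ?_⟩
    · rw [mul_smul, hyα]
    · calc y * x * s * (y * x)⁻¹ = y * (x * s * x⁻¹) * y⁻¹ := by group
        _ = y * t * y⁻¹ := by rw [hx]
        _ = t * y * y⁻¹ := by rw [hy]
        _ = t := by group
  refine ⟨Nat.card {g : L // g • α₀ = α₀ ∧ g * τ₀ = τ₀ * g}, ?_, hν, ?_, ?_, htrans⟩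
  · have hdvd : Nat.card {g : L // g • α₀ = α₀ ∧ g * τ₀ = τ₀ * g} ∣
        Nat.card (MulAction.stabilizer L α₀) := by
      have e1 : Nat.card {g : L // g • α₀ = α₀ ∧ g * τ₀ = τ₀ * g} =
          Nat.card ((MulAction.stabilizer L α₀) ⊓ Subgroup.centralizer ({τ₀} : Set L) :
            Subgroup L) := by
        refine Nat.card_congr (Equiv.subtypeEquivRight ?_)
        intro g
        rw [Subgroup.mem_inf, MulAction.mem_stabilizer_iff, hC]
      rw [e1]
      exact Subgroup.card_dvd_of_le inf_le_left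
    exact Odd.of_dvd_nat (P4_oddstab h α₀) hdvd
  · intro τ hτ
    rw [horb τ₀ α₀ hτ₀]
    exact hsame τ τ₀ hτ hτ₀
  · intro α
    let act : MulAction L {t : L // IsInv t} := P4_act L
    have h1 := @P4_orb L {t : L // IsInv t} _ act _ (MulAction.stabilizer L α) ⟨τ₀, hτ₀⟩ (by
      intro t
      obtain ⟨g, hg, hgt⟩ := htrans α τ₀ t.1 hτ₀ t.2
      exact ⟨g, hg, Subtype.ext hgt⟩)
    rw [← h1, mul_comm, ← hν τ₀ α hτ₀]
    congr 1
    refine Nat.card_congr (Equiv.subtypeEquivRight ?_)
    intro g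
    constructor
    · rintro ⟨hgα, hg⟩
      refine ⟨Subtype.ext ?_, hgα⟩
      change g * τ₀ * g⁻¹ = τ₀
      rw [hg]; group
    · rintro ⟨hg, hgα⟩
      refine ⟨hgα, ?_⟩
      have h2 : g * τ₀ * g⁻¹ = τ₀ := congrArg Subtype.val hg
      calc g * τ₀ = g * τ₀ * g⁻¹ * g := by group
        _ = τ₀ * g := by rw [h2]

end Pool.Agent.helper53.AU
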