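import Pool.Agent.helper53.AU.SpecG2

/-!
# Project au: module X3, (10.3)
-/

namespace Pool.Agent.helper53.AU

open scoped Classical

/-- the 3-elements of a group of type `ThreeCyc` form a subgroup -/
theorem X3_thr {L : Type} [Group L] [Finite L] (H : Subgroup L) (h : ThreeCyc H) :
    ∃ P : Subgroup L, IsPGroup 3 P ∧ ∀ x, x ∈ P ↔ x ∈ H ∧ ∃ m : ℕ, x ^ (3 ^ m) = 1 := by
  obtain ⟨P, c, hPH, hcH, hP3, hnorm, h3, hgen⟩ := h
  refine ⟨P, hP3, ?_⟩
  intro x
  constructor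
  · intro hx
    refine ⟨hPH hx, ?_⟩
    obtain ⟨m, hm⟩ := hP3 ⟨x, hx⟩
    exact ⟨m, congrArg Subtype.val hm⟩
  · rintro ⟨hx, m, hm⟩
    obtain ⟨p, hp, n, hxe⟩ := hgen x hx
    -- powers of `x`
    have hpow : ∀ k : ℕ, ∃ q ∈ P, x ^ k = q * c ^ (n * k) := by
      intro k
      induction k with
      | zero => exact ⟨1, P.one_mem, by simp⟩
      | succ k ih =>
        obtain ⟨q, hq, hk⟩ := ih
        refine ⟨p * (c ^ n * q * (c ^ n)⁻¹), P.mul_mem hp (hnorm _ (H.pow_mem hcH n) q hq), ?_⟩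
        rw [pow_succ', hk]
        nth_rewrite 1 [hxe]
        rw [mul_add, mul_one, add_comm (n * k) n, pow_add]
        group
    obtain ⟨q, hq, ho⟩ := hpow (orderOf c)
    have h1 : x ^ (orderOf c) ∈ P := by
      rw [ho, mul_comm n, pow_mul, pow_orderOf_eq_one, one_pow, mul_one]
      exact hq
    have hcop : (orderOf c).gcd (orderOf x) = 1 := by
      have h2 : orderOf x ∣ 3 ^ m := orderOf_dvd_of_pow_eq_one hm
      have h3' : Nat.Coprime (orderOf c) (3 ^ m) := by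
        apply Nat.Coprime.pow_right
        rw [Nat.coprime_comm]
        exact (Nat.Prime.coprime_iff_not_dvd Nat.prime_three).mpr h3
      exact Nat.Coprime.coprime_dvd_right h2 h3'
    have h4 : x ∈ Subgroup.zpowers (x ^ (orderOf c)) := mem_zpowers_pow_iff.mpr hcop
    obtain ⟨t, ht⟩ := h4
    have ht' : (x ^ orderOf c) ^ t = x := ht
    rw [← ht']
    exact P.zpow_mem h1 t

/-- the 3-elements of a two-point stabiliser form a subgroup of order `3^j` -/
theorem X3_two {L Ω : Type} [Group L] [MulAction L Ω] [Finite L] (α β : Ω) (j b : ℕ)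
    (h : ThreeCyc (MulAction.stabilizer L α)) (hb : ¬ 3 ∣ b)
    (hc : Nat.card {g : L // g • α = α ∧ g • β = β} = 3 ^ j * b) :
    ∃ I : Subgroup L, (∀ x, x ∈ I ↔ x • α = α ∧ x • β = β ∧ ∃ m : ℕ, x ^ (3 ^ m) = 1) ∧
      Nat.card I = 3 ^ j := by
  obtain ⟨P, hP3, hP⟩ := X3_thr _ h
  have hmem : ∀ x, x ∈ P ⊓ MulAction.stabilizer L β ↔
      x • α = α ∧ x • β = β ∧ ∃ m : ℕ, x ^ (3 ^ m) = 1 := by
    intro x
    rw [Subgroup.mem_inf, hP, MulAction.mem_stabilizer_iff, MulAction.mem_stabilizer_iff]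
    tauto
  refine ⟨P ⊓ MulAction.stabilizer L β, hmem, ?_⟩
  have hH : Nat.card (MulAction.stabilizer L α ⊓ MulAction.stabilizer L β : Subgroup L) =
      3 ^ j * b := by
    rw [← hc]
    refine Nat.card_congr (Equiv.subtypeEquivRight ?_)
    intro x
    rw [Subgroup.mem_inf, MulAction.mem_stabilizer_iff, MulAction.mem_stabilizer_iff]
  apply Nat.dvd_antisymm
  · have hI3 : IsPGroup 3 (P ⊓ MulAction.stabilizer L β : Subgroup L) :=
      hP3.to_le inf_le_left
    have : Fact (Nat.Prime 3) := ⟨Nat.prime_three⟩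
    obtain ⟨n, hn⟩ := IsPGroup.iff_card.mp hI3
    have h1 : 3 ^ n ∣ 3 ^ j * b := by
      rw [← hn, ← hH]
      apply Subgroup.card_dvd_of_le
      intro x hx
      rw [hmem] at hx
      rw [Subgroup.mem_inf, MulAction.mem_stabilizer_iff, MulAction.mem_stabilizer_iff]
      exact ⟨hx.1, hx.2.1⟩
    rw [hn]
    refine Nat.Coprime.dvd_of_dvd_mul_right ?_ h1
    apply Nat.Coprime.pow_left
    exact (Nat.Prime.coprime_iff_not_dvd Nat.prime_three).mpr hb
  · have : Fact (Nat.Prime 3) := ⟨Nat.prime_three⟩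
    obtain ⟨K, hK⟩ := Sylow.exists_subgroup_card_pow_prime
      (G := (MulAction.stabilizer L α ⊓ MulAction.stabilizer L β : Subgroup L)) 3 (n := j)
      (by rw [hH]; exact dvd_mul_right _ _)
    have h1 : Nat.card (K.map (Subgroup.subtype _)) = 3 ^ j := by
      rw [← hK]
      exact Subgroup.card_map_of_injective (Subgroup.subtype_injective _)
    rw [← h1]
    apply Subgroup.card_dvd_of_le
    intro x hx
    obtain ⟨y, hy, rfl⟩ := hx
    rw [hmem]
    have hy2 := y.2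
    rw [Subgroup.mem_inf, MulAction.mem_stabilizer_iff, MulAction.mem_stabilizer_iff] at hy2
    refine ⟨hy2.1, hy2.2, j, ?_⟩
    have h2 : (⟨y, hy⟩ : K) ^ (3 ^ j) = 1 := by
      rw [← hK]
      exact pow_card_eq_one'
    have h3 : y ^ (3 ^ j) = 1 := congrArg Subtype.val h2
    exact congrArg Subtype.val h3

theorem X3_orbit_dvd {L Ω : Type} [Group L] [MulAction L Ω] [Finite L] (C : Subgroup L) (α : Ω) :
    Nat.card (MulAction.orbit C α) ∣ Nat.card C := by
  refine ⟨Nat.card (MulAction.stabilizer C α), ?_⟩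
  rw [← Nat.card_prod]
  exact (Nat.card_congr (MulAction.orbitProdStabilizerEquivGroup C α)).symm

theorem X3 (hPLL : PLL_stmt) (hP4 : P4_stmt) (hP7 : P7_stmt) (hX1 : X1_stmt) (hX2 : X2_stmt) :
    X3_stmt := by
  intro L Ω _ _ A hL h2 j b hb3 hst2 τ' α hτ'
  have := hL.finL
  have := hL.finΩ
  have hPL := hPLL L Ω A hL
  obtain ⟨c', b', j', hc', hc3', hΩ', hb3', -, -, hst', -, -⟩ := hX1 L Ω A hL h2
  obtain ⟨ν, -, hν1, -, -, -⟩ := hP4 L Ω A hPL
  have hodd : ∀ α : Ω, ¬ 2 ∣ Nat.card (MulAction.stabilizer L α) := by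
    intro α h
    have h1 := hL.copr α
    have h3 := Nat.dvd_gcd h (dvd_trans (by norm_num) hL.four)
    rw [Nat.Coprime] at h1
    rw [h1] at h3
    omega
  -- a second point
  obtain ⟨β, hβ⟩ : ∃ β : Ω, α ≠ β := by
    by_contra hne
    push Not at hne
    have h1 : Nat.card Ω = 1 := by
      rw [Nat.card_eq_one_iff_unique]
      exact ⟨⟨fun x y => (hne x).symm.trans (hne y)⟩, ⟨α⟩⟩
    have h4 := hL.four
    rw [h1] at h4
    omega
  -- the groups `I`
  have hI : ∀ γ δ : Ω, γ ≠ δ → ∃ I : Subgroup L,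
      (∀ x, x ∈ I ↔ x • γ = γ ∧ x • δ = δ ∧ ∃ m : ℕ, x ^ (3 ^ m) = 1) ∧ Nat.card I = 3 ^ j := by
    intro γ δ hγδ
    exact X3_two γ δ j b (hL.stab γ) hb3 (hst2 γ δ hγδ)
  obtain ⟨I, hImem, hIcard⟩ := hI α β hβ
  -- uniqueness
  have hIu : ∀ γ δ : Ω, γ ≠ δ → (∀ x ∈ I, x • γ = γ) → (∀ x ∈ I, x • δ = δ) →
      ∀ x, x ∈ I ↔ x • γ = γ ∧ x • δ = δ ∧ ∃ m : ℕ, x ^ (3 ^ m) = 1 := by
    intro γ δ hγδ hγ hδ
    obtain ⟨J, hJ, hJc⟩ := hI γ δ hγδ
    have hle : I ≤ J := by
      intro x hx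
      rw [hJ]
      exact ⟨hγ x hx, hδ x hx, ((hImem x).1 hx).2.2⟩
    have heq : I = J := Subgroup.eq_of_le_of_card_ge hle (by rw [hIcard, hJc])
    intro x
    rw [← hJ, heq]
  -- 2-transitivity of the normaliser
  have hN2 : ∀ γ δ γ' δ' : Ω, γ ≠ δ → γ' ≠ δ' → (∀ x ∈ I, x • γ = γ) → (∀ x ∈ I, x • δ = δ) →
      (∀ x ∈ I, x • γ' = γ') → (∀ x ∈ I, x • δ' = δ') →
      ∃ g : L, g • γ = γ' ∧ g • δ = δ' ∧ ∀ x, x ∈ I ↔ g * x * g⁻¹ ∈ I := by
    intro γ δ γ' δ' h h' h1 h2' h3 h4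
    obtain ⟨g, hg1, hg2⟩ := h2 γ δ γ' δ' h h'
    refine ⟨g, hg1, hg2, ?_⟩
    intro x
    rw [hIu γ δ h h1 h2' x, hIu γ' δ' h' h3 h4 (g * x * g⁻¹)]
    have e1 : (g * x * g⁻¹) • γ' = γ' ↔ x • γ = γ := by
      rw [← hg1, ← mul_smul, show g * x * g⁻¹ * g = g * x by group, mul_smul]
      exact ⟨fun h => (MulAction.injective g) h, fun h => by rw [h]⟩
    have e2 : (g * x * g⁻¹) • δ' = δ' ↔ x • δ = δ := by
      rw [← hg2, ← mul_smul, show g * x * g⁻¹ * g = g * x by group, mul_smul]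
      exact ⟨fun h => (MulAction.injective g) h, fun h => by rw [h]⟩
    have e3 : (∃ m : ℕ, (g * x * g⁻¹) ^ (3 ^ m) = 1) ↔ ∃ m : ℕ, x ^ (3 ^ m) = 1 := by
      constructor
      · rintro ⟨m, hm⟩
        refine ⟨m, ?_⟩
        rw [conj_pow] at hm
        calc x ^ (3 ^ m) = g⁻¹ * (g * x ^ (3 ^ m) * g⁻¹) * g := by group
          _ = 1 := by rw [hm]; group
      · rintro ⟨m, hm⟩
        exact ⟨m, by rw [conj_pow, hm]; group⟩
    rw [e1, e2, e3]
  have hFα : ∀ x ∈ I, x • α = α := fun x hx => ((hImem x).1 hx).1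
  have hFβ : ∀ x ∈ I, x • β = β := fun x hx => ((hImem x).1 hx).2.1
  -- the element `z`
  obtain ⟨z, hz1, hzα, hz3, hzc⟩ : ∃ z : L, z ≠ 1 ∧ z • α = α ∧ (∃ m : ℕ, z ^ (3 ^ m) = 1) ∧
      ∀ p : L, p • α = α → (∃ m : ℕ, p ^ (3 ^ m) = 1) → p * z = z * p := by
    obtain ⟨P, hP3, hP⟩ := X3_thr _ (hL.stab α)
    have : Fact (Nat.Prime 3) := ⟨Nat.prime_three⟩
    have h3 : 3 ∣ Nat.card (MulAction.stabilizer L α) := by
      rw [hst' α]
      refine dvd_mul_of_dvd_left (dvd_pow_self 3 (by omega)) _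
    obtain ⟨x, hx⟩ := exists_prime_orderOf_dvd_card' 3 h3
    have hxo : (x : L) ^ 3 = 1 := by
      have := pow_orderOf_eq_one x
      rw [hx] at this
      exact congrArg Subtype.val this
    have hxP : (x : L) ∈ P := by
      rw [hP]
      exact ⟨x.2, 1, by simpa using hxo⟩
    have hx1 : (x : L) ≠ 1 := by
      intro h
      have h' : x = 1 := Subtype.ext h
      rw [h', orderOf_one] at hx
      omega
    have hnt : Nontrivial P := ⟨⟨x, hxP⟩, 1, fun h => hx1 (congrArg Subtype.val h)⟩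
    have hcn := hP3.center_nontrivial
    obtain ⟨z, hz⟩ := exists_ne (1 : Subgroup.center P)
    have hzP := (hP (z : P)).1 (z : P).2
    refine ⟨((z : P) : L), ?_, hzP.1, hzP.2, ?_⟩
    · intro h
      apply hz
      exact Subtype.ext (Subtype.ext h)
    · intro p hpα hp3
      have hpP : p ∈ P := (hP p).2 ⟨hpα, hp3⟩
      have := Subgroup.mem_center_iff.mp z.2 ⟨p, hpP⟩
      exact congrArg Subtype.val this
  have hzβ : z • β ≠ β := by
    intro h
    exact hz1 (hX2 L Ω A hL h2 α β z hβ hzα h hz3 hzc)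
  have hzI : ∀ x ∈ I, x * z = z * x := by
    intro x hx
    have h := (hImem x).1 hx
    exact hzc x h.1 h.2.2
  -- the centraliser `C` of `I`
  set C : Subgroup L := Subgroup.centralizer (I : Set L) with hCdef
  have hC : ∀ g, g ∈ C ↔ ∀ x ∈ I, x * g = g * x := by
    intro g
    rw [hCdef, Subgroup.mem_centralizer_iff]
    rfl
  have hCF : ∀ g ∈ C, ∀ ω : Ω, (∀ x ∈ I, x • ω = ω) → ∀ x ∈ I, x • (g • ω) = g • ω := by
    intro g hg ω hω x hx
    rw [← mul_smul, (hC g).1 hg x hx, mul_smul, hω x hx]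
  have hzC : z ∈ C := (hC z).2 hzI
  have horbC : MulAction.orbit C β = {ω | ∀ x ∈ I, x • ω = ω} := by
    ext δ
    constructor
    · rintro ⟨g, rfl⟩
      exact hCF g.1 g.2 β hFβ
    · intro hδ
      by_cases hδβ : δ = β
      · rw [hδβ]; exact MulAction.mem_orbit_self β
      obtain ⟨g, hg1, hg2, hgI⟩ := hN2 β (z • β) β δ (Ne.symm hzβ) (Ne.symm hδβ) hFβ
        (hCF z hzC β hFβ) hFβ hδ
      have hgC : g * z * g⁻¹ ∈ C := by
        rw [hC]
        intro x hx
        have h1 : g⁻¹ * x * g ∈ I := by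
          rw [hgI, show g * (g⁻¹ * x * g) * g⁻¹ = x by group]
          exact hx
        have h3 := hzI _ h1
        calc x * (g * z * g⁻¹) = g * (g⁻¹ * x * g * z) * g⁻¹ := by group
          _ = g * (z * (g⁻¹ * x * g)) * g⁻¹ := by rw [h3]
          _ = g * z * g⁻¹ * x := by group
      refine ⟨⟨g * z * g⁻¹, hgC⟩, ?_⟩
      change (g * z * g⁻¹) • β = δ
      have h1 : g⁻¹ • β = β := by
        rw [inv_smul_eq_iff]; exact hg1.symm
      rw [mul_smul, mul_smul, h1, hg2]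
  -- the normaliser of `I` in the stabiliser of `α`
  set N : Subgroup L := Subgroup.normalizer (I : Set L) ⊓ MulAction.stabilizer L α with hNdef
  have hN : ∀ g, g ∈ N ↔ (∀ x, x ∈ I ↔ g * x * g⁻¹ ∈ I) ∧ g • α = α := by
    intro g
    rw [hNdef, Subgroup.mem_inf, MulAction.mem_stabilizer_iff, Subgroup.mem_normalizer_iff]
  have horbN : MulAction.orbit N β = {ω | (∀ x ∈ I, x • ω = ω) ∧ ω ≠ α} := by
    ext δ
    constructor
    · rintro ⟨g, rfl⟩
      have hg := (hN g.1).1 g.2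
      change (∀ x ∈ I, x • (g.1 • β) = g.1 • β) ∧ g.1 • β ≠ α
      refine ⟨?_, ?_⟩
      · intro x hx
        have h1 : g.1⁻¹ * x * g.1 ∈ I := by
          rw [hg.1, show g.1 * (g.1⁻¹ * x * g.1) * g.1⁻¹ = x by group]
          exact hx
        have h3 := hFβ _ h1
        calc x • (g.1 • β) = (g.1 * (g.1⁻¹ * x * g.1)) • β := by
              rw [← mul_smul]; congr 1; group
          _ = g.1 • ((g.1⁻¹ * x * g.1) • β) := by rw [mul_smul]
          _ = g.1 • β := by rw [h3]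
      · intro h
        have h3 : g.1 • β = g.1 • α := by rw [h, hg.2]
        exact hβ ((MulAction.injective g.1) h3).symm
    · rintro ⟨hδ, hδα⟩
      obtain ⟨g, hg1, hg2, hgI⟩ := hN2 α β α δ hβ (Ne.symm hδα) hFα hFβ hFα hδ
      exact ⟨⟨g, (hN g).2 ⟨hgI, hg1⟩⟩, hg2⟩
  have hF2 : 2 ∣ Nat.card (MulAction.orbit C β) := by
    have h1 : Nat.card (MulAction.orbit C β) = Nat.card (MulAction.orbit N β) + 1 := by
      rw [horbC, horbN]
      have e1 : {ω : Ω | ∀ x ∈ I, x • ω = ω} = insert α {ω | (∀ x ∈ I, x • ω = ω) ∧ ω ≠ α} := by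
        ext δ
        constructor
        · intro hδ
          by_cases hδα : δ = α
          · exact Or.inl hδα
          · exact Or.inr ⟨hδ, hδα⟩
        · rintro (hδ | hδ)
          · rw [hδ]; exact hFα
          · exact hδ.1
      rw [e1, Nat.card_coe_set_eq, Nat.card_coe_set_eq]
      exact Set.ncard_insert_of_notMem (fun h => h.2 rfl) (Set.toFinite _)
    have h3 : ¬ 2 ∣ Nat.card (MulAction.orbit N β) := by
      intro h
      apply hodd α
      exact dvd_trans h (dvd_trans (X3_orbit_dvd N β) (Subgroup.card_dvd_of_le inf_le_right))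
    omega
  have hC2 : 2 ∣ Nat.card C := dvd_trans hF2 (X3_orbit_dvd C β)
  have : Fact (Nat.Prime 2) := ⟨Nat.prime_two⟩
  obtain ⟨τ, hτ⟩ := exists_prime_orderOf_dvd_card' 2 hC2
  have hτinv : IsInv (τ : L) := by
    constructor
    · have h1 := pow_orderOf_eq_one τ
      rw [hτ, pow_two] at h1
      exact congrArg Subtype.val h1
    · intro h
      have h' : τ = 1 := Subtype.ext h
      rw [h', orderOf_one] at hτ
      omega
  have hτα : α ≠ (τ : L) • α := by
    intro h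
    apply hodd α
    have h1 : (τ : L) ∈ MulAction.stabilizer L α := h.symm
    have h3 : orderOf (⟨(τ : L), h1⟩ : MulAction.stabilizer L α) = 2 := by
      rw [Subgroup.orderOf_mk, Subgroup.orderOf_coe, hτ]
    rw [← h3]
    exact orderOf_dvd_natCard _
  have hFτ := hCF (τ : L) τ.2 α hFα
  have hmem := hIu α ((τ : L) • α) hτα hFα hFτ
  rw [hν1 τ' α hτ', ← hν1 (τ : L) α hτinv, ← hIcard]
  obtain ⟨m, hm⟩ := hP7 L Ω A hPL (τ : L) α hτinv
  have hV : Nat.card (MulAction.stabilizer L α ⊓ Subgroup.centralizer ({(τ : L)} : Set L) :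
      Subgroup L) = 3 ^ m := by
    rw [← hm]
    refine Nat.card_congr (Equiv.subtypeEquivRight ?_)
    intro g
    rw [Subgroup.mem_inf, MulAction.mem_stabilizer_iff, Subgroup.mem_centralizer_singleton_iff]
  refine Nat.card_congr (Equiv.subtypeEquivRight ?_)
  intro g
  constructor
  · rintro ⟨hgα, hgτ⟩
    rw [hmem]
    refine ⟨hgα, ?_, m, ?_⟩
    · rw [← mul_smul, hgτ, mul_smul, hgα]
    · have hgV : g ∈ (MulAction.stabilizer L α ⊓ Subgroup.centralizer ({(τ : L)} : Set L) :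
          Subgroup L) := by
        rw [Subgroup.mem_inf, MulAction.mem_stabilizer_iff,
          Subgroup.mem_centralizer_singleton_iff]
        exact ⟨hgα, hgτ⟩
      have h1 := pow_card_eq_one' (x := (⟨g, hgV⟩ : (MulAction.stabilizer L α ⊓
        Subgroup.centralizer ({(τ : L)} : Set L) : Subgroup L)))
      rw [hV] at h1
      exact congrArg Subtype.val h1
  · intro hg
    exact ⟨hFα g hg, (hC (τ : L)).1 τ.2 g hg⟩

end Pool.Agent.helper53.AU
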