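import Pool.Agent.helper53.AU.SpecG2

/-!
# Project au: module XX (summary of section 10)
-/

namespace Pool.Agent.helper53.AU

theorem XX (hPLL : PLL_stmt) (hP4 : P4_stmt) (hX1 : X1_stmt) (hX3 : X3_stmt) (hX4 : X4_stmt) :
    XX_stmt := by
  intro L Ω _ _ A hL h2
  obtain ⟨c, b, j, hc, hc3, hΩ, hb3, hb, hbd, hst, hst2, -⟩ := hX1 L Ω A hL h2
  obtain ⟨ν, -, hν1, hν2, -, -⟩ := hP4 L Ω A (hPLL L Ω A hL)
  have hne : Nonempty Ω := by
    by_contra hne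
    rw [not_nonempty_iff] at hne
    rw [Nat.card_of_isEmpty] at hΩ
    exact absurd hΩ.symm (Nat.succ_ne_zero _)
  obtain ⟨α⟩ := hne
  refine ⟨c, b, j, hc, hc3, hΩ, hb3, hb, hbd, hst, ?_, ?_⟩
  · intro τ hτ
    have h3 := hX3 L Ω A hL h2 j b hb3 hst2 τ α hτ
    rw [hν1 τ α hτ] at h3
    rw [hν2 τ hτ, h3, hΩ]
  · intro hbe
    refine hX4 L Ω A hL h2 c j hΩ ?_
    intro α β hαβ
    rw [hst2 α β hαβ, hbe]

end Pool.Agent.helper53.AU
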