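import Pool.Agent.helper75.AU.SpecR

/-!
# Project au: module S6 (the outcome of section 6, assembly)
-/

namespace Pool.Agent.helper75.AU

open scoped Classical
open Pool.Agent.helper53.AU MulAction

theorem S6 (hBA1 : BA1_stmt) (hNUM : NUM_stmt) (hN1 : N1_stmt) (hS61 : S61_stmt)
    (hS62 : S62_stmt) (hPI : PI_stmt) (hS63 : S63_stmt) (hS64 : S64_stmt) : S6_stmt := by
  intro k G X _ _ _ _ _ _ l R x y hl hbig hnl hT hy hP
  obtain ⟨D, u, h', e', hnum⟩ := hNUM k G X l R x y hl hT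
  obtain ⟨u₁, hu₁, huu, hG1, hB1, hB2, c, hc, hcord, hcgen⟩ :=
    hN1 k G X l R x y D u h' e' hl hT hnum
  have h3 : ¬ 3 ∣ u₁ * e' := by
    intro h3
    have h4 : ¬ 3 ∣ hh R y := (hBA1 k G X (l + 1) R y).2.2.2.2.2.2.2.1
    apply h4
    rw [hnum.hy, huu, mul_assoc]
    exact dvd_mul_of_dvd_right h3 _
  obtain ⟨hq, hD, hom, h4, hm3, hfib, hcase⟩ :=
    hS63 k G X l R x y D u h' e' u₁ c hl hnl hT hP hnum hB1 hu₁ hc hcord h3
  subst hD
  obtain ⟨htx, hty, -, -, -, -⟩ := hS61 k G X l R x y hl hT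
  obtain ⟨k1c, k1n, k1s, k1card, k1t⟩ := hS62 k G X l R x hl hnl hT.syl
  have hzp := hS64 k G X l R x y u h' e' hl hbig hT hy hnum h4
  obtain ⟨f, pi, -, hf, -, -, -, hcN⟩ := hPI k G X l R x hT.syl hT.wild
  obtain ⟨S, hS⟩ := hT.syl
  have hf2 : f = 2 := by rw [← hf S, hfib S]
  have hN := hcN htx
  rw [hf2, hB1] at hN
  refine ⟨c, u, h', e', u₁, ?_, hcase⟩
  exact
    { two := hT
      num := hnum
      big := hbig
      nl := hnl
      q2 := hq
      four := h4
      mod3 := hm3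
      om := hom
      u1 := huu
      cardG1 := hG1
      cardB1 := hB1
      cardN1 := by rw [hN]; ring
      cardB2 := hB2
      fib := hfib
      trx := htx
      try' := hty
      c_mem := hc
      c_ord := hcord
      c_gen := hcgen
      zp := hzp
      k1c := k1c
      k1n := k1n
      k1s := k1s
      k1card := k1card
      k1t := k1t }

end Pool.Agent.helper75.AU
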